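import Pool.Agent.Helper80_PND.Stmts

/-!
# CYC: in a 2-connected graph two edges lie on a common cycle
-/

set_option autoImplicit false

open SimpleGraph

namespace Pool.Agent.PND80.H3

open Pool.Agent.RS80 Pool.Agent.PND80

variable {V : Type} {B : SimpleGraph V}

theorem glue {a b v w r : V} (p1 : B.Walk a v) (p3 : B.Walk v r) (p4 : B.Walk r b)
    (hp : (p1.append (p3.append p4)).IsPath) (hvr : r ≠ v) (h : B.Adj v w) (R : B.Walk w r)
    (hR : R.IsPath)
    (hd : ∀ u ∈ R.support, u ∈ (p1.append (p3.append p4)).support → u = r) :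
    ∃ q : B.Walk a b, q.IsPath ∧ s(v, w) ∈ q.edges := by
  have hnd := hp.support_nodup
  rw [Walk.support_append, Walk.support_append] at hnd
  have ht : (p3.support ++ p4.support.tail).tail = p3.support.tail ++ p4.support.tail := by
    rw [p3.support_eq_cons]
    rfl
  rw [ht] at hnd
  have hr3 : r ∈ p3.support.tail := by
    have h1 := p3.end_mem_support
    rw [p3.support_eq_cons, List.mem_cons] at h1
    rcases h1 with h1 | h1
    · exact absurd h1 hvr
    · exact h1
  have hmem : ∀ u, u ∈ (p1.append (p3.append p4)).support ↔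
      u ∈ p1.support ∨ u ∈ p3.support.tail ∨ u ∈ p4.support.tail := by
    intro u
    rw [Walk.support_append, Walk.support_append, ht]
    simp only [List.mem_append]
  have hn1 : p1.support.Nodup := (List.nodup_append.1 hnd).1
  have hn2 : (p3.support.tail ++ p4.support.tail).Nodup := (List.nodup_append.1 hnd).2.1
  have hn4 : p4.support.tail.Nodup := (List.nodup_append.1 hn2).2.1
  have d1 : ∀ u ∈ p1.support, ∀ u' ∈ p3.support.tail ++ p4.support.tail, u ≠ u' :=
    (List.nodup_append.1 hnd).2.2
  have d2 : ∀ u ∈ p3.support.tail, ∀ u' ∈ p4.support.tail, u ≠ u' := (List.nodup_append.1 hn2).2.2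
  refine ⟨p1.append (Walk.cons h (R.append p4)), ?_, ?_⟩
  · rw [Walk.isPath_def, Walk.support_append, Walk.support_cons, List.tail_cons,
      Walk.support_append]
    rw [List.nodup_append]
    refine ⟨hn1, ?_, ?_⟩
    · rw [List.nodup_append]
      refine ⟨hR.support_nodup, hn4, ?_⟩
      intro u hu u' hu' he
      subst he
      have := hd u hu ((hmem u).2 (Or.inr (Or.inr hu')))
      rw [this] at hu'
      exact d2 r hr3 r hu' rfl
    · intro u hu u' hu' he
      subst he
      rcases List.mem_append.1 hu' with h1 | h1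
      · have := hd u h1 ((hmem u).2 (Or.inl hu))
        rw [this] at hu
        exact d1 r hu r (List.mem_append.2 (Or.inl hr3)) rfl
      · exact d1 u hu u (List.mem_append.2 (Or.inr h1)) rfl
  · rw [Walk.edges_append, Walk.edges_cons]
    simp

theorem detour [DecidableEq V] {a b v w r : V} (p : B.Walk a b) (hp : p.IsPath)
    (hv : v ∈ p.support) (hr : r ∈ p.support) (hvr : r ≠ v) (h : B.Adj v w) (R : B.Walk w r)
    (hR : R.IsPath) (hd : ∀ u ∈ R.support, u ∈ p.support → u = r) :
    ∃ q : B.Walk a b, q.IsPath ∧ s(v, w) ∈ q.edges := by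
  have hspec := p.take_spec hv
  have hr' := hr
  rw [← hspec, Walk.mem_support_append_iff] at hr'
  rcases hr' with h1 | h1
  · -- reverse
    have hsp : (p.dropUntil v hv).reverse.append ((p.takeUntil v hv).reverse) = p.reverse := by
      rw [← Walk.reverse_append, hspec]
    have h2 : r ∈ (p.takeUntil v hv).reverse.support := by
      rw [Walk.support_reverse, List.mem_reverse]
      exact h1
    have hsp2 := (p.takeUntil v hv).reverse.take_spec h2
    obtain ⟨q, hq, he⟩ := glue (p.dropUntil v hv).reverse
      ((p.takeUntil v hv).reverse.takeUntil r h2) ((p.takeUntil v hv).reverse.dropUntil r h2)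
      (by rw [hsp2, hsp]; exact hp.reverse) hvr h R hR (by
        rw [hsp2, hsp]
        intro u hu hu'
        rw [Walk.support_reverse, List.mem_reverse] at hu'
        exact hd u hu hu')
    refine ⟨q.reverse, hq.reverse, ?_⟩
    rw [Walk.edges_reverse, List.mem_reverse]
    exact he
  · have hsp2 := (p.dropUntil v hv).take_spec h1
    exact glue (p.takeUntil v hv) ((p.dropUntil v hv).takeUntil r h1)
      ((p.dropUntil v hv).dropUntil r h1) (by rw [hsp2, hspec]; exact hp) hvr h R hR (by
        rw [hsp2, hspec]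
        exact hd)

theorem hit (S : Set V) {w u : V} (q : B.Walk w u) (hu : u ∈ S) :
    ∃ r ∈ S, ∃ R : B.Walk w r, (∀ z ∈ R.support, z ∈ q.support) ∧
      ∀ z ∈ R.support, z ∈ S → z = r := by
  induction q with
  | nil =>
    refine ⟨_, hu, Walk.nil, fun z hz => hz, ?_⟩
    intro z hz _
    simpa using hz
  | @cons w w' u h q ih =>
    obtain ⟨r, hr, R, h1, h2⟩ := ih hu
    by_cases hw : w ∈ S
    · refine ⟨w, hw, Walk.nil, ?_, ?_⟩
      · intro z hz
        have : z = w := by simpa using hz
        rw [this]
        simp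
      · intro z hz _
        simpa using hz
    · refine ⟨r, hr, Walk.cons h R, ?_, ?_⟩
      · intro z hz
        rw [Walk.support_cons, List.mem_cons] at hz ⊢
        rcases hz with hz | hz
        · exact Or.inl hz
        · exact Or.inr (h1 z hz)
      · intro z hz hzS
        rw [Walk.support_cons, List.mem_cons] at hz
        rcases hz with hz | hz
        · rw [hz] at hzS
          exact absurd hzS hw
        · exact h2 z hz hzS

theorem through [DecidableEq V] (hB : ∀ v : V, (B.induce {v}ᶜ).Connected) {a b v w : V}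
    (hab : a ≠ b) (p : B.Walk a b) (hp : p.IsPath) (hv : v ∈ p.support) (h : B.Adj v w) :
    ∃ q : B.Walk a b, q.IsPath ∧ s(v, w) ∈ q.edges := by
  by_cases hw : w ∈ p.support
  · exact detour p hp hv hw h.ne' h Walk.nil Walk.IsPath.nil (by
      intro u hu _
      simpa using hu)
  · obtain ⟨u, huv, hu⟩ : ∃ u, u ≠ v ∧ u ∈ p.support := by
      by_cases hav : a = v
      · exact ⟨b, fun hb => hab (hav.trans hb.symm), p.end_mem_support⟩
      · exact ⟨a, hav, p.start_mem_support⟩
    have hw' : w ∈ ({v}ᶜ : Set V) := by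
      simpa using h.ne'
    have hu' : u ∈ ({v}ᶜ : Set V) := by
      simpa using huv
    obtain ⟨q0⟩ := (hB v).preconnected ⟨w, hw'⟩ ⟨u, hu'⟩
    let q : B.Walk w u := q0.map (Embedding.induce ({v}ᶜ : Set V)).toHom
    have hqv : ∀ z ∈ q.support, z ≠ v := by
      intro z hz
      have hz' : z ∈ (q0.map (Embedding.induce ({v}ᶜ : Set V)).toHom).support := hz
      rw [Walk.support_map, List.mem_map] at hz'
      obtain ⟨z', _, hz'⟩ := hz'
      rw [← hz']
      exact z'.2
    obtain ⟨r, hr, R, h1, h2⟩ := hit {z | z ∈ p.support} q hu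
    refine detour p hp hv hr (hqv r (h1 r R.end_mem_support)) h R.bypass R.bypass_isPath ?_
    intro z hz hz'
    exact h2 z (R.support_bypass_subset hz) hz'

theorem cyc : CycStmt := by
  intro V _ B hB x y s t hxy hst _
  classical
  have key : ∀ v : V, ∃ p : B.Walk t s, p.IsPath ∧ v ∈ p.support := by
    have h0 : ∀ u v : V, B.Walk u v → (∃ p : B.Walk t s, p.IsPath ∧ u ∈ p.support) →
        ∃ p : B.Walk t s, p.IsPath ∧ v ∈ p.support := by
      intro u v q
      induction q with
      | nil => exact id
      | @cons u w v h q ih =>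
        rintro ⟨p, hp, hu⟩
        obtain ⟨p', hp', he⟩ := through hB.2.2 hst.ne' p hp hu h
        exact ih ⟨p', hp', p'.snd_mem_support_of_mem_edges he⟩
    intro v
    obtain ⟨q⟩ := hB.2.1.preconnected t v
    refine h0 t v q ⟨Walk.cons hst.symm Walk.nil, ?_, ?_⟩
    · rw [Walk.isPath_def]
      simp [hst.ne']
    · simp
  obtain ⟨p, hp, hx⟩ := key x
  exact through hB.2.2 hst.ne' p hp hx hxy

end Pool.Agent.PND80.H3
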